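import Mathlib.Algebra.BigOperators.Group.Finset.Basic
import Mathlib.Algebra.Group.Action.Defs
import Mathlib.Algebra.Order.BigOperators.Ring.Finset
import Mathlib.Data.Fintype.BigOperators
import Mathlib.Tactic

/-!
# Cosets of subgroups in large subsets of elementary abelian 2-groups
-/

set_option autoImplicit false

namespace Pool.Agent.J4H91.TG

open Finset

variable {Q : Type*} [Group Q] [Fintype Q] [DecidableEq Q]

omit [Fintype Q] [DecidableEq Q] in
lemma comm_of_two (h2 : ∀ q : Q, q * q = 1) (a b : Q) : a * b = b * a := by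
  have h1 : ∀ q : Q, q⁻¹ = q := fun q => inv_eq_of_mul_eq_one_left (h2 q)
  calc a * b = (a * b)⁻¹ := (h1 _).symm
    _ = b⁻¹ * a⁻¹ := mul_inv_rev a b
    _ = b * a := by rw [h1, h1]

/-- the set `H` is a subgroup (of a group of exponent two) -/
def Sub (H : Finset Q) : Prop := 1 ∈ H ∧ ∀ a ∈ H, ∀ b ∈ H, a * b ∈ H

/-- one doubling step -/
lemma double (h2 : ∀ q : Q, q * q = 1) (H T : Finset Q) (hH : Sub H)
    (hT : ∀ x ∈ T, ∀ h ∈ H, x * h ∈ T) (hc : 2 * H.card ≤ T.card) :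
    ∃ H' T' : Finset Q, Sub H' ∧ H'.card = 2 * H.card ∧ T' ⊆ T ∧
      (∀ x ∈ T', ∀ h ∈ H', x * h ∈ T') ∧ T.card ^ 2 ≤ 2 * Fintype.card Q * T'.card := by
  have hH0 : 0 < H.card := card_pos.2 ⟨1, hH.1⟩
  set f : Q → ℕ := fun g => (T.filter (fun x => x * g ∈ T)).card with hf
  have hsum : ∑ g : Q, f g = T.card * T.card := by
    have h1 : ∑ g : Q, f g = ∑ x ∈ T, ∑ g : Q, (if x * g ∈ T then 1 else 0) := by
      rw [sum_comm]
      exact sum_congr rfl fun g _ => card_filter _ _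
    rw [h1]
    have h3 : ∀ x ∈ T, ∑ g : Q, (if x * g ∈ T then 1 else 0) = T.card := by
      intro x _
      have h4 : ∑ g : Q, (if x * g ∈ T then 1 else 0) = ∑ g : Q, (if g ∈ T then 1 else 0) :=
        Fintype.sum_equiv (Equiv.mulLeft x) _ _ fun _ => rfl
      rw [h4, ← card_filter]
      congr 1
      ext
      simp
    rw [sum_congr rfl h3, sum_const, smul_eq_mul]
  have hin : ∀ g ∈ H, f g = T.card := by
    intro g hg
    have : T.filter (fun x => x * g ∈ T) = T := filter_true_of_mem fun x hx => hT x hx g hg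
    rw [hf]
    simp only
    rw [this]
  have hsplit : ∑ g ∈ H, f g + ∑ g ∈ Hᶜ, f g = T.card * T.card := by
    rw [← hsum, sum_add_sum_compl]
  rw [sum_congr rfl hin, sum_const, smul_eq_mul] at hsplit
  have hbig : T.card * T.card ≤ 2 * ∑ g ∈ Hᶜ, f g := by nlinarith
  obtain ⟨g, hg, hgf⟩ : ∃ g ∈ Hᶜ, T.card ^ 2 ≤ 2 * Fintype.card Q * f g := by
    by_contra hcon
    push Not at hcon
    rcases Hᶜ.eq_empty_or_nonempty with he | hne
    · rw [he, sum_empty] at hbig
      nlinarith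
    · have h1 : ∑ g ∈ Hᶜ, 2 * Fintype.card Q * f g < ∑ _g ∈ Hᶜ, T.card ^ 2 :=
        sum_lt_sum_of_nonempty hne hcon
      rw [← mul_sum, sum_const, smul_eq_mul] at h1
      have h3 : (Hᶜ).card * T.card ^ 2 ≤ Fintype.card Q * T.card ^ 2 :=
        Nat.mul_le_mul_right _ (card_le_univ _)
      have h4 : Fintype.card Q * (T.card * T.card) ≤ Fintype.card Q * (2 * ∑ g ∈ Hᶜ, f g) :=
        Nat.mul_le_mul_left _ hbig
      have h5 : 2 * Fintype.card Q * ∑ g ∈ Hᶜ, f g = Fintype.card Q * (2 * ∑ g ∈ Hᶜ, f g) := by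
        ring
      have h6 : T.card ^ 2 = T.card * T.card := sq _
      rw [h5] at h1
      rw [h6] at h1 h3
      omega
  have hgH : g ∉ H := mem_compl.1 hg
  have hinj : Function.Injective fun h : Q => g * h := mul_right_injective g
  refine ⟨H ∪ H.image (fun h => g * h), T.filter (fun x => x * g ∈ T), ⟨?_, ?_⟩, ?_, ?_, ?_, hgf⟩
  · exact mem_union_left _ hH.1
  · intro a ha b hb
    rw [mem_union, mem_image] at ha hb ⊢
    rcases ha with ha | ⟨a, ha, rfl⟩ <;> rcases hb with hb | ⟨b, hb, rfl⟩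
    · exact Or.inl (hH.2 a ha b hb)
    · refine Or.inr ⟨a * b, hH.2 a ha b hb, ?_⟩
      rw [← mul_assoc, ← mul_assoc, comm_of_two h2 g a]
    · exact Or.inr ⟨a * b, hH.2 a ha b hb, by rw [mul_assoc]⟩
    · refine Or.inl ?_
      have : g * a * (g * b) = a * b := by
        rw [comm_of_two h2 g a, mul_assoc, ← mul_assoc g g b, h2, one_mul]
      rw [this]
      exact hH.2 a ha b hb
  · rw [card_union_of_disjoint, card_image_of_injective _ hinj, two_mul]
    rw [disjoint_left]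
    rintro x hx hx'
    obtain ⟨h, hh, rfl⟩ := mem_image.1 hx'
    apply hgH
    have : g = g * h * h := by rw [mul_assoc, h2, mul_one]
    rw [this]
    exact hH.2 _ hx _ hh
  · exact filter_subset _ _
  · intro x hx h hh
    rw [mem_filter] at hx
    have key : ∀ y ∈ T.filter (fun x => x * g ∈ T), ∀ h ∈ H,
        y * h ∈ T.filter (fun x => x * g ∈ T) := by
      intro y hy h hh
      rw [mem_filter] at hy ⊢
      refine ⟨hT _ hy.1 _ hh, ?_⟩
      have : y * h * g = y * g * h := by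
        rw [mul_assoc, comm_of_two h2 h g, ← mul_assoc]
      rw [this]
      exact hT _ hy.2 _ hh
    rw [mem_union, mem_image] at hh
    rcases hh with hh | ⟨h, hh, rfl⟩
    · exact key x (mem_filter.2 hx) h hh
    · rw [← mul_assoc]
      refine key _ (mem_filter.2 ⟨hx.2, ?_⟩) h hh
      rw [mul_assoc, h2, mul_one]
      exact hx.1

/-- `i` doubling steps -/
lemma doubles (h2 : ∀ q : Q, q * q = 1) (S : Finset Q) (M k : ℕ) (hM : 2 * k ≤ M)
    (hS : M * (2 * Fintype.card Q) ^ (k - 1) ≤ S.card ^ k) :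
    ∀ i : ℕ, 2 ^ i ≤ 2 * k → (∃ e, 2 * k = 2 ^ e) → 1 ≤ k →
      ∃ H T : Finset Q, Sub H ∧ H.card = 2 ^ i ∧ T ⊆ S ∧ (∀ x ∈ T, ∀ h ∈ H, x * h ∈ T) ∧
        S.card ^ (2 ^ i) ≤ T.card * (2 * Fintype.card Q) ^ (2 ^ i - 1) := by
  intro i
  induction i with
  | zero =>
    intro _ _ _
    refine ⟨{1}, S, ⟨by simp, by simp⟩, by simp, Subset.rfl, by simp, by simp⟩
  | succ i ih =>
    intro hi he hk
    obtain ⟨H, T, hH, hHc, hTS, hT, hc⟩ := ih (by rw [pow_succ] at hi; omega) he hk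
    have hik : 2 ^ i ≤ k := by rw [pow_succ] at hi; omega
    have hQ : 0 < Fintype.card Q := Fintype.card_pos_iff.2 ⟨1⟩
    have hSQ : S.card ≤ 2 * Fintype.card Q := (card_le_univ S).trans (by omega)
    have h1 : 2 * H.card ≤ T.card := by
      rw [hHc]
      have e1 : M * (2 * Fintype.card Q) ^ (k - 1) ≤
          T.card * (2 * Fintype.card Q) ^ (k - 1) := by
        calc M * (2 * Fintype.card Q) ^ (k - 1) ≤ S.card ^ k := hS
          _ = S.card ^ (2 ^ i) * S.card ^ (k - 2 ^ i) := by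
            rw [← pow_add]
            congr 1
            omega
          _ ≤ (T.card * (2 * Fintype.card Q) ^ (2 ^ i - 1)) *
              (2 * Fintype.card Q) ^ (k - 2 ^ i) :=
            Nat.mul_le_mul hc (Nat.pow_le_pow_left hSQ _)
          _ = T.card * (2 * Fintype.card Q) ^ (k - 1) := by
            rw [mul_assoc, ← pow_add]
            congr 2
            have : 1 ≤ 2 ^ i := Nat.one_le_two_pow
            omega
      have e2 : M ≤ T.card := Nat.le_of_mul_le_mul_right e1 (by positivity)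
      omega
    obtain ⟨H', T', hH', hHc', hTT, hT', hc'⟩ := double h2 H T hH hT h1
    refine ⟨H', T', hH', by rw [hHc', hHc, pow_succ, mul_comm], hTT.trans hTS, hT', ?_⟩
    calc S.card ^ (2 ^ (i + 1)) = (S.card ^ (2 ^ i)) ^ 2 := by rw [← pow_mul, pow_succ]
      _ ≤ (T.card * (2 * Fintype.card Q) ^ (2 ^ i - 1)) ^ 2 := Nat.pow_le_pow_left hc _
      _ = T.card ^ 2 * (2 * Fintype.card Q) ^ (2 * (2 ^ i - 1)) := by
        rw [mul_pow, ← pow_mul, mul_comm (2 ^ i - 1) 2]
      _ ≤ (2 * Fintype.card Q * T'.card) * (2 * Fintype.card Q) ^ (2 * (2 ^ i - 1)) :=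
        Nat.mul_le_mul_right _ hc'
      _ = T'.card * ((2 * Fintype.card Q) * (2 * Fintype.card Q) ^ (2 * (2 ^ i - 1))) := by ring
      _ = T'.card * (2 * Fintype.card Q) ^ (2 ^ (i + 1) - 1) := by
        rw [← pow_succ']
        congr 2
        have : 1 ≤ 2 ^ i := Nat.one_le_two_pow
        rw [pow_succ]
        omega

/-- **cosets in large sets** -/
theorem coset (h2 : ∀ q : Q, q * q = 1) (S : Finset Q) (e : ℕ)
    (hS : 2 ^ (e + 1) * (2 * Fintype.card Q) ^ (2 ^ e - 1) ≤ S.card ^ (2 ^ e)) :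
    ∃ (H : Finset Q) (a : Q), Sub H ∧ H.card = 2 ^ (e + 1) ∧ ∀ h ∈ H, a * h ∈ S := by
  have hk : 1 ≤ 2 ^ e := Nat.one_le_two_pow
  have h3 : 2 * 2 ^ e = 2 ^ (e + 1) := by rw [pow_succ, mul_comm]
  obtain ⟨H, T, hH, hHc, hTS, hT, hc⟩ := doubles h2 S (2 ^ (e + 1)) (2 ^ e) h3.le hS (e + 1)
    h3.ge ⟨e + 1, h3⟩ hk
  have hQ : 0 < Fintype.card Q := Fintype.card_pos_iff.2 ⟨1⟩
  have hS0 : 0 < S.card := by
    rcases Nat.eq_zero_or_pos S.card with h | h
    · rw [h, zero_pow (by omega)] at hS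
      have : 0 < 2 ^ (e + 1) * (2 * Fintype.card Q) ^ (2 ^ e - 1) := by positivity
      omega
    · exact h
  have hT0 : 0 < T.card := by
    rcases Nat.eq_zero_or_pos T.card with h | h
    · rw [h, zero_mul] at hc
      have : 0 < S.card ^ (2 ^ (e + 1)) := by positivity
      omega
    · exact h
  obtain ⟨a, ha⟩ := card_pos.1 hT0
  exact ⟨H, a, hH, hHc, fun h hh => hTS (hT a ha h hh)⟩

end Pool.Agent.J4H91.TG
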