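import Pool.Agent.J4H91.TG.Graph
import Mathlib.FieldTheory.Finite.Extension
import Mathlib.FieldTheory.Finite.Trace

/-!
# Examples: symmetric graphs in characteristic two
-/

set_option autoImplicit false

namespace Pool.Agent.J4H91.TG

open Finset

/-- the group `Q` has exponent two and acts semiregularly by automorphisms -/
def Symmetric (Q V : Type) [Group Q] [MulAction Q V] (G : SimpleGraph V) : Prop :=
  (∀ q : Q, q * q = 1) ∧ (∀ (q : Q) (v w : V), G.Adj v w → G.Adj (q • v) (q • w)) ∧
    ∀ (q : Q) (v : V), q • v = v → q = 1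

/-- counting edges from below -/
lemma edges_ge {V : Type} [Fintype V] (G : SimpleGraph V) (D : ℕ)
    (h : ∀ v, ∃ B : Finset V, D ≤ B.card ∧ ∀ w ∈ B, G.Adj v w) :
    Fintype.card V * D ≤ 2 * Nat.card G.edgeSet := by
  classical
  have h5 : Nat.card G.edgeSet = G.edgeFinset.card := by
    rw [← SimpleGraph.coe_edgeFinset, Nat.card_coe_set_eq, Set.ncard_coe_finset]
  rw [h5, ← G.sum_degrees_eq_twice_card_edges]
  have h1 : ∀ v ∈ (univ : Finset V), D ≤ G.degree v := by
    intro v _
    obtain ⟨B, hB, hadj⟩ := h v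
    rw [← SimpleGraph.card_neighborFinset_eq_degree]
    exact hB.trans (card_le_card fun w hw => by simpa using hadj w hw)
  have h2 := sum_le_sum h1
  rwa [sum_const, smul_eq_mul, card_univ] at h2

lemma copy_data {V : Type} (G : SimpleGraph V) {s t : ℕ}
    (h : ¬ (completeBipartiteGraph (Fin s) (Fin t)).Free G) :
    ∃ (f : Fin s → V) (g : Fin t → V), Function.Injective f ∧ Function.Injective g ∧
      ∀ i j, G.Adj (f i) (g j) := by
  rw [SimpleGraph.not_free] at h
  obtain ⟨c⟩ := h
  refine ⟨fun i => c (Sum.inl i), fun j => c (Sum.inr j), ?_, ?_, ?_⟩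
  · intro i j hij
    have := c.injective hij
    simpa using this
  · intro i j hij
    have := c.injective hij
    simpa using this
  · intro i j
    exact c.toHom.map_adj (by simp [completeBipartiteGraph])

/-! ### a Cayley graph -/

section cayley

variable (F : Type) [Field F]

/-- translates of the graph of `x ↦ x ^ 3` -/
def cube : SimpleGraph (F × F) where
  Adj u v := u ≠ v ∧ u.2 + v.2 = (u.1 + v.1) ^ 3
  symm := ⟨fun u v h => ⟨h.1.symm, by rw [add_comm, h.2, add_comm u.1]⟩⟩
  loopless := ⟨fun u h => h.1 rfl⟩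

variable [CharP F 2]

lemma cube_free : (completeBipartiteGraph (Fin 2) (Fin 3)).Free (cube F) := by
  intro hcon
  obtain ⟨f, g, hf, hg, h⟩ := copy_data (cube F) (not_not.2 hcon)
  have h2 : ∀ x : F, x + x = 0 := fun x => CharTwo.add_self_eq_zero x
  have h22 : (2 : F) = 0 := CharTwo.two_eq_zero
  set d := (f 0).1 + (f 1).1 with hd
  have hd0 : d ≠ 0 := by
    intro h0
    have e1 : (f 0).1 = (f 1).1 := by
      have : (f 0).1 = (f 0).1 + ((f 1).1 + (f 1).1) := by rw [h2, add_zero]
      rw [this, ← add_assoc, ← hd, h0, zero_add]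
    have e2 : (f 0).2 = (f 1).2 := by
      have e3 := (h 0 0).2
      have e4 := (h 1 0).2
      rw [e1, ← e4] at e3
      exact add_right_cancel e3
    have := hf (Prod.ext e1 e2)
    simp at this
  have key : ∀ j, d * ((f 0).1 + (g j).1) ^ 2 + d ^ 2 * ((f 0).1 + (g j).1) =
      (f 0).2 + (f 1).2 + d ^ 3 := by
    intro j
    have e3 := (h 0 j).2
    have e4 := (h 1 j).2
    have e5 : (f 1).1 + (g j).1 = ((f 0).1 + (g j).1) + d := by
      rw [hd]
      linear_combination (-(f 0).1) * h22
    rw [e5] at e4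
    set a := (f 0).1 + (g j).1
    linear_combination (-1 : F) * e3 - e4 + ((g j).2 - a ^ 3 - a ^ 2 * d - a * d ^ 2 - d ^ 3) * h22
  have hne : ∀ j k, j ≠ k → (g j).1 ≠ (g k).1 := by
    intro j k hjk h1
    apply hjk
    apply hg
    refine Prod.ext h1 ?_
    have e3 := (h 0 j).2
    have e4 := (h 0 k).2
    rw [h1, ← e4] at e3
    exact add_left_cancel e3
  have pair : ∀ j k, j ≠ k → (f 0).1 + (g j).1 + ((f 0).1 + (g k).1) + d = 0 := by
    intro j k hjk
    have e1 := key j
    rw [← key k] at e1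
    have e2 : d * (((g j).1 - (g k).1) * ((f 0).1 + (g j).1 + ((f 0).1 + (g k).1) + d)) = 0 := by
      linear_combination e1
    rcases mul_eq_zero.1 e2 with e3 | e3
    · exact absurd e3 hd0
    · rcases mul_eq_zero.1 e3 with e4 | e4
      · exact absurd (sub_eq_zero.1 e4) (hne j k hjk)
      · exact e4
  have p1 := pair 0 1 (by decide)
  have p2 := pair 0 2 (by decide)
  apply hne 1 2 (by decide)
  linear_combination p1 - p2

lemma cube_symmetric : Symmetric (Multiplicative (F × F)) (F × F) (cube F) := by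
  refine ⟨?_, ?_, ?_⟩
  · intro q
    have h2 : ∀ x : F, x + x = 0 := fun x => CharTwo.add_self_eq_zero x
    apply Multiplicative.toAdd.injective
    change (Multiplicative.toAdd q) + (Multiplicative.toAdd q) = 0
    exact Prod.ext (h2 _) (h2 _)
  · intro q v w hvw
    have h2 : ∀ x : F, x + x = 0 := fun x => CharTwo.add_self_eq_zero x
    have h22 : (2 : F) = 0 := CharTwo.two_eq_zero
    set a : F × F := Multiplicative.toAdd q with ha
    change a + v ≠ a + w ∧ (a + v).2 + (a + w).2 = ((a + v).1 + (a + w).1) ^ 3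
    refine ⟨fun h => hvw.1 (add_left_cancel h), ?_⟩
    have e1 : (a + v).1 + (a + w).1 = v.1 + w.1 := by
      simp only [Prod.fst_add]
      linear_combination a.1 * h22
    have e2 : (a + v).2 + (a + w).2 = v.2 + w.2 := by
      simp only [Prod.snd_add]
      linear_combination a.2 * h22
    rw [e1, e2]
    exact hvw.2
  · intro q v hq
    set a : F × F := Multiplicative.toAdd q with ha
    change a + v = v at hq
    apply Multiplicative.toAdd.injective
    change a = 0
    exact add_eq_right.1 hq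

lemma cube_edges [Fintype F] :
    Fintype.card (F × F) * (Fintype.card F - 1) ≤ 2 * Nat.card (cube F).edgeSet := by
  classical
  apply edges_ge
  intro v
  refine ⟨(univ.filter (fun x : F => x ≠ v.1)).image (fun x => (x, v.2 + (v.1 + x) ^ 3)), ?_, ?_⟩
  · rw [card_image_of_injective _ (fun x y h => (Prod.ext_iff.1 h).1), filter_ne', card_erase_of_mem
      (mem_univ _), card_univ]
  · intro w hw
    obtain ⟨x, hx, rfl⟩ := mem_image.1 hw
    have h2 : ∀ x : F, x + x = 0 := fun x => CharTwo.add_self_eq_zero x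
    refine ⟨fun h => (mem_filter.1 hx).2 (by rw [h]), ?_⟩
    change v.2 + (v.2 + (v.1 + x) ^ 3) = (v.1 + x) ^ 3
    rw [← add_assoc, h2, zero_add]

end cayley

/-! ### projective norm graphs in characteristic two -/

/-- two norm equations -/
lemma norm_system {K : Type} [Field K] (σ : K →+* K) (d1 d2 c1 c2 : K) (h1 : d1 ≠ 0)
    (h2 : d2 ≠ 0) (h12 : d1 ≠ d2) (Y : Fin 3 → K) (hY : Function.Injective Y)
    (e1 : ∀ j, (1 + d1 * Y j) * (1 + σ d1 * σ (Y j)) = c1)
    (e2 : ∀ j, (1 + d2 * Y j) * (1 + σ d2 * σ (Y j)) = c2) : False := by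
  have hσ : Function.Injective σ := σ.injective
  have s1 : σ d1 ≠ 0 := (map_ne_zero_iff σ hσ).2 h1
  have s2 : σ d2 ≠ 0 := (map_ne_zero_iff σ hσ).2 h2
  have hα : d1 * d2 * (σ d2 - σ d1) ≠ 0 :=
    mul_ne_zero (mul_ne_zero h1 h2) (sub_ne_zero.2 fun h => h12 (hσ h).symm)
  have hβ : σ d1 * σ d2 * (d2 - d1) ≠ 0 :=
    mul_ne_zero (mul_ne_zero s1 s2) (sub_ne_zero.2 fun h => h12 h.symm)
  set α := d1 * d2 * (σ d2 - σ d1) with hαd
  set β := σ d1 * σ d2 * (d2 - d1) with hβd
  have lin : ∀ j k, α * (Y j - Y k) + β * (σ (Y j) - σ (Y k)) = 0 := by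
    intro j k
    have a1 := e1 j
    rw [← e1 k] at a1
    have a2 := e2 j
    rw [← e2 k] at a2
    rw [hαd, hβd]
    linear_combination (d2 * σ d2) * a1 - (d1 * σ d1) * a2
  have key : ∀ j k, j ≠ k → β * d1 - α * σ d1 + d1 * σ d1 * (-α * Y j + β * σ (Y k)) = 0 := by
    intro j k hjk
    have a1 := e1 j
    rw [← e1 k] at a1
    have a2 := lin j k
    have a3 : (Y j - Y k) * (β * d1 - α * σ d1 + d1 * σ d1 * (-α * Y j + β * σ (Y k))) = 0 := by
      linear_combination β * a1 - (σ d1 + d1 * σ d1 * Y j) * a2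
    rcases mul_eq_zero.1 a3 with a4 | a4
    · exact absurd (hY (sub_eq_zero.1 a4)) hjk
    · exact a4
  have k1 := key 0 1 (by decide)
  have k2 := key 0 2 (by decide)
  have k3 : d1 * σ d1 * β * (σ (Y 1) - σ (Y 2)) = 0 := by linear_combination k1 - k2
  have k4 : σ (Y 1) = σ (Y 2) := by
    rcases mul_eq_zero.1 k3 with h | h
    · exact absurd h (mul_ne_zero (mul_ne_zero h1 s1) hβ)
    · exact sub_eq_zero.1 h
  have := hY (hσ k4)
  exact absurd this (by decide)

end Pool.Agent.J4H91.TG
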