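import Pool.Agent.J4H91.TG.Core
import Mathlib.Analysis.SpecialFunctions.Pow.Real
import Mathlib.Combinatorics.SimpleGraph.Copy
import Mathlib.Combinatorics.SimpleGraph.DegreeSum

/-!
# Graphs with a semiregular elementary abelian 2-group of automorphisms
-/

set_option autoImplicit false

namespace Pool.Agent.J4H91.TG

open Finset

/-- a copy of a complete bipartite graph -/
lemma not_free_of_adj {V : Type*} (G : SimpleGraph V) {s t : ℕ} (f : Fin s → V) (g : Fin t → V)
    (hf : Function.Injective f) (hg : Function.Injective g) (h : ∀ i j, G.Adj (f i) (g j)) :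
    ¬ (completeBipartiteGraph (Fin s) (Fin t)).Free G := by
  intro hfree
  apply hfree
  refine ⟨⟨⟨Sum.elim f g, ?_⟩, ?_⟩⟩
  · intro a b hab
    rcases a with a | a <;> rcases b with b | b
    · simp [completeBipartiteGraph] at hab
    · exact h a b
    · exact (h b a).symm
    · simp [completeBipartiteGraph] at hab
  · intro a b hab
    rcases a with a | a <;> rcases b with b | b
    · change f a = f b at hab
      rw [hf hab]
    · change f a = g b at hab
      exact absurd (h a b) (by rw [hab]; exact G.irrefl)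
    · change g a = f b at hab
      exact absurd (h b a) (by rw [hab]; exact G.irrefl)
    · change g a = g b at hab
      rw [hg hab]

lemma not_free_of_sets {V : Type*} (G : SimpleGraph V) {s t : ℕ} (A B : Finset V)
    (hA : s ≤ A.card) (hB : t ≤ B.card) (h : ∀ a ∈ A, ∀ b ∈ B, G.Adj a b) :
    ¬ (completeBipartiteGraph (Fin s) (Fin t)).Free G := by
  obtain ⟨A', hA', hAc⟩ := exists_subset_card_eq hA
  obtain ⟨B', hB', hBc⟩ := exists_subset_card_eq hB
  refine not_free_of_adj G (fun i => ((Finset.equivFinOfCardEq hAc).symm i : V))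
    (fun i => ((Finset.equivFinOfCardEq hBc).symm i : V)) ?_ ?_ ?_
  · exact Subtype.val_injective.comp (Equiv.injective _)
  · exact Subtype.val_injective.comp (Equiv.injective _)
  · intro i j
    exact h _ (hA' (Subtype.prop _)) _ (hB' (Subtype.prop _))

variable {V Q : Type} [Fintype V] [Group Q] [Fintype Q] [MulAction Q V]

omit [Fintype V] in
/-- the connection sets are small -/
lemma small_connection (G : SimpleGraph V) (h2 : ∀ q : Q, q * q = 1)
    (hG : ∀ (q : Q) (v w : V), G.Adj v w → G.Adj (q • v) (q • w))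
    (hQ : ∀ (q : Q) (v : V), q • v = v → q = 1) (e s t : ℕ) (hs : s ≤ 2 ^ (e + 1))
    (ht : t ≤ 2 ^ (e + 1)) (hfree : (completeBipartiteGraph (Fin s) (Fin t)).Free G)
    (v w : V) (S : Finset Q) (hS : ∀ g ∈ S, G.Adj v (g • w)) :
    S.card ^ (2 ^ e) < 2 ^ (e + 1) * (2 * Fintype.card Q) ^ (2 ^ e - 1) := by
  classical
  by_contra hcon
  push Not at hcon
  obtain ⟨H, a, hH, hHc, ha⟩ := coset h2 S e hcon
  have inj : ∀ x : V, Function.Injective fun g : Q => g • x := by
    intro x g g' hgg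
    simp only at hgg
    have h1 : (g'⁻¹ * g) • x = x := by
      rw [mul_smul, hgg, inv_smul_smul]
    have h3 := hQ _ _ h1
    rw [inv_mul_eq_one] at h3
    exact h3.symm
  refine not_free_of_sets G (H.image fun h => h • v) (H.image fun h => (a * h) • w) ?_ ?_ ?_ hfree
  · rw [card_image_of_injective _ (inj v), hHc]
    exact hs
  · have : (H.image fun h => (a * h) • w) = (H.image fun h => a * h).image fun g => g • w := by
      rw [image_image]
      rfl
    rw [this, card_image_of_injective _ (inj w), card_image_of_injective _ (mul_right_injective a),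
      hHc]
    exact ht
  · intro x hx y hy
    obtain ⟨h, hh, rfl⟩ := mem_image.1 hx
    obtain ⟨h', hh', rfl⟩ := mem_image.1 hy
    have h1 := hG h _ _ (hS _ (ha (h * h') (hH.2 h hh h' hh')))
    have h3 : h * (a * (h * h')) = a * h' := by
      rw [← mul_assoc, comm_of_two h2 h a, mul_assoc, ← mul_assoc h h h', h2, one_mul]
    rw [← mul_smul, h3] at h1
    exact h1

/-- the degrees -/
theorem degree_le (G : SimpleGraph V) [DecidableRel G.Adj] (h2 : ∀ q : Q, q * q = 1)
    (hG : ∀ (q : Q) (v w : V), G.Adj v w → G.Adj (q • v) (q • w))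
    (hQ : ∀ (q : Q) (v : V), q • v = v → q = 1) (e s t : ℕ) (hs : s ≤ 2 ^ (e + 1))
    (ht : t ≤ 2 ^ (e + 1)) (hfree : (completeBipartiteGraph (Fin s) (Fin t)).Free G) (v : V) :
    (G.degree v : ℝ) ≤
      3 * Fintype.card V * (Fintype.card Q : ℝ) ^ (-(1 / (2 ^ e : ℝ))) := by
  classical
  have hQ0 : 0 < Fintype.card Q := Fintype.card_pos_iff.2 ⟨1⟩
  have hN : (0 : ℝ) < Fintype.card Q := by exact_mod_cast hQ0
  set N : ℝ := ((Fintype.card Q : ℕ) : ℝ) with hNdef
  set k : ℕ := 2 ^ e with hk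
  have hk1 : 1 ≤ k := Nat.one_le_two_pow
  have hk0 : (0 : ℝ) < k := by exact_mod_cast hk1
  have hkk : ∀ k : ℕ, (k : ℝ) ≤ (3 / 2) ^ k := by
    intro k
    have hk3 : ∀ j : ℕ, ((j + 2 : ℕ) : ℝ) ≤ (3 / 2) ^ (j + 2) := by
      intro j
      induction j with
      | zero => norm_num
      | succ j ih =>
        rw [show j + 1 + 2 = (j + 2) + 1 by ring, pow_succ]
        push_cast at ih ⊢
        nlinarith
    rcases k with _ | _ | j
    · norm_num
    · norm_num
    · exact hk3 j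
  -- the connection sets
  have hconn : ∀ w : V, (((univ : Finset Q).filter (fun g => G.Adj v (g • w))).card : ℝ) ≤
      3 * N ^ (1 - 1 / (k : ℝ)) := by
    intro w
    have h1 := small_connection G h2 hG hQ e s t hs ht hfree v w
      ((univ : Finset Q).filter (fun g => G.Adj v (g • w))) (fun g hg => (mem_filter.1 hg).2)
    set c : ℕ := ((univ : Finset Q).filter (fun g => G.Adj v (g • w))).card with hc
    have h3 : (c : ℝ) ^ k ≤ 2 ^ (e + 1) * (2 * N) ^ (k - 1) := by
      have h1' := h1.le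
      rw [← hk] at h1'
      have h1'' : ((c ^ k : ℕ) : ℝ) ≤
          ((2 ^ (e + 1) * (2 * Fintype.card Q) ^ (k - 1) : ℕ) : ℝ) := Nat.cast_le.2 h1'
      rw [hNdef]
      push_cast at h1''
      exact h1''
    have h4 : (2 : ℝ) ^ (e + 1) * (2 * N) ^ (k - 1) ≤ (3 * N ^ (1 - 1 / (k : ℝ))) ^ k := by
      have e1 : (3 * N ^ (1 - 1 / (k : ℝ))) ^ k = 3 ^ k * N ^ (k - 1) := by
        rw [mul_pow, ← Real.rpow_natCast (N ^ (1 - 1 / (k : ℝ))) k, ← Real.rpow_mul hN.le,
          sub_mul, one_mul, one_div, inv_mul_cancel₀ hk0.ne',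
          show (k : ℝ) - 1 = ((k - 1 : ℕ) : ℝ) by rw [Nat.cast_sub hk1, Nat.cast_one],
          Real.rpow_natCast]
      have e2 : (2 : ℝ) ^ (e + 1) * (2 * N) ^ (k - 1) = k * 2 ^ k * N ^ (k - 1) := by
        obtain ⟨j, hj⟩ : ∃ j, k = j + 1 := ⟨k - 1, by omega⟩
        have : (k : ℝ) = 2 ^ e := by rw [hk]; push_cast; ring
        rw [mul_pow, this, hj, Nat.add_sub_cancel]
        ring
      rw [e1, e2]
      refine mul_le_mul_of_nonneg_right ?_ (by positivity)
      have e3 := hkk k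
      calc (k : ℝ) * 2 ^ k ≤ (3 / 2) ^ k * 2 ^ k := mul_le_mul_of_nonneg_right e3 (by positivity)
        _ = 3 ^ k := by rw [← mul_pow]; norm_num
    exact (pow_le_pow_iff_left₀ (by positivity) (by positivity) (by omega)).1 (h3.trans h4)
  -- double counting
  have hcount : Fintype.card Q * G.degree v =
      ∑ w : V, ((univ : Finset Q).filter (fun g => G.Adj v (g • w))).card := by
    have h1 : ∀ w : V, ((univ : Finset Q).filter (fun g => G.Adj v (g • w))).card =
        ∑ g : Q, (if G.Adj v (g • w) then 1 else 0) := fun w => card_filter _ _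
    rw [sum_congr rfl fun w _ => h1 w, sum_comm]
    have h3 : ∀ g : Q, ∑ w : V, (if G.Adj v (g • w) then 1 else 0) = G.degree v := by
      intro g
      have h4 : ∑ w : V, (if G.Adj v (g • w) then 1 else 0) =
          ∑ w : V, (if G.Adj v w then 1 else 0) :=
        Fintype.sum_equiv (MulAction.toPerm g) _ _ fun _ => rfl
      rw [h4, ← card_filter, ← SimpleGraph.card_neighborFinset_eq_degree,
        SimpleGraph.neighborFinset_eq_filter]
    rw [sum_congr rfl fun g _ => h3 g, sum_const, smul_eq_mul, card_univ]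
  have hcount' : N * G.degree v ≤ Fintype.card V * (3 * N ^ (1 - 1 / (k : ℝ))) := by
    have h1 : (N * G.degree v : ℝ) =
        ∑ w : V, (((univ : Finset Q).filter (fun g => G.Adj v (g • w))).card : ℝ) := by
      rw [hNdef]
      exact_mod_cast hcount
    rw [h1]
    refine (sum_le_sum fun w _ => hconn w).trans (le_of_eq ?_)
    rw [sum_const, nsmul_eq_mul, card_univ]
  have h5 : N ^ (1 - 1 / (k : ℝ)) = N * N ^ (-(1 / (k : ℝ))) := by
    rw [sub_eq_add_neg, Real.rpow_add hN, Real.rpow_one]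
  rw [h5] at hcount'
  have h6 : N * (G.degree v : ℝ) ≤ N * (3 * Fintype.card V * N ^ (-(1 / (k : ℝ)))) := by
    refine hcount'.trans (le_of_eq ?_)
    ring
  have h7 := le_of_mul_le_mul_left h6 hN
  have h8 : ((k : ℕ) : ℝ) = 2 ^ e := by rw [hk]; push_cast; ring
  rw [h8] at h7
  exact h7

/-- the number of the edges -/
theorem edges_le (G : SimpleGraph V) (h2 : ∀ q : Q, q * q = 1)
    (hG : ∀ (q : Q) (v w : V), G.Adj v w → G.Adj (q • v) (q • w))
    (hQ : ∀ (q : Q) (v : V), q • v = v → q = 1) (e s t : ℕ) (hs : s ≤ 2 ^ (e + 1))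
    (ht : t ≤ 2 ^ (e + 1)) (hfree : (completeBipartiteGraph (Fin s) (Fin t)).Free G) :
    (Nat.card G.edgeSet : ℝ) ≤
      3 / 2 * (Fintype.card V : ℝ) ^ 2 * (Fintype.card Q : ℝ) ^ (-(1 / (2 ^ e : ℝ))) := by
  classical
  have h1 := G.sum_degrees_eq_twice_card_edges
  have h3 : (2 * G.edgeFinset.card : ℝ) = ∑ v : V, (G.degree v : ℝ) := by exact_mod_cast h1.symm
  have h4 : ∑ v : V, (G.degree v : ℝ) ≤
      ∑ _v : V, 3 * Fintype.card V * (Fintype.card Q : ℝ) ^ (-(1 / (2 ^ e : ℝ))) :=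
    sum_le_sum fun v _ => degree_le G h2 hG hQ e s t hs ht hfree v
  rw [sum_const, nsmul_eq_mul, card_univ] at h4
  have h5 : Nat.card G.edgeSet = G.edgeFinset.card := by
    rw [← SimpleGraph.coe_edgeFinset, Nat.card_coe_set_eq, Set.ncard_coe_finset]
  rw [h5]
  nlinarith

/-- graphs of the conjectured order -/
theorem card_le (G : SimpleGraph V) (h2 : ∀ q : Q, q * q = 1)
    (hG : ∀ (q : Q) (v w : V), G.Adj v w → G.Adj (q • v) (q • w))
    (hQ : ∀ (q : Q) (v : V), q • v = v → q = 1) (e s t : ℕ) (hs : s ≤ 2 ^ (e + 1))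
    (ht : t ≤ 2 ^ (e + 1)) (hfree : (completeBipartiteGraph (Fin s) (Fin t)).Free G)
    (hs1 : 1 ≤ s) (c : ℝ) (hc : 0 < c) (hV : 1 ≤ Fintype.card V)
    (hE : c * (Fintype.card V : ℝ) ^ (2 - 1 / (s : ℝ)) ≤ Nat.card G.edgeSet) :
    (Fintype.card Q : ℝ) ≤
      (3 / (2 * c)) ^ (2 ^ e) * (Fintype.card V : ℝ) ^ ((2 ^ e : ℝ) / s) := by
  have hQ0 : 0 < Fintype.card Q := Fintype.card_pos_iff.2 ⟨1⟩
  have hN : (0 : ℝ) < Fintype.card Q := by exact_mod_cast hQ0
  have hn : (0 : ℝ) < Fintype.card V := by exact_mod_cast hV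
  have hs0 : (0 : ℝ) < s := by exact_mod_cast hs1
  set N : ℝ := ((Fintype.card Q : ℕ) : ℝ) with hNdef
  set n : ℝ := ((Fintype.card V : ℕ) : ℝ) with hndef
  have h1 := hE.trans (edges_le G h2 hG hQ e s t hs ht hfree)
  set k : ℕ := 2 ^ e with hk
  have hk1 : 1 ≤ k := Nat.one_le_two_pow
  have hk0 : (0 : ℝ) < k := by exact_mod_cast hk1
  have h8 : (2 ^ e : ℝ) = (k : ℕ) := by rw [hk]; push_cast; ring
  rw [h8] at h1 ⊢
  have h3 : n ^ (2 - 1 / (s : ℝ)) = n ^ 2 * n ^ (-(1 / (s : ℝ))) := by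
    rw [sub_eq_add_neg, Real.rpow_add hn]
    congr 1
    exact_mod_cast Real.rpow_natCast n 2
  have h4 : N ^ (1 / (k : ℝ)) ≤ 3 / (2 * c) * n ^ (1 / (s : ℝ)) := by
    rw [← hNdef, ← hndef, h3, Real.rpow_neg hN.le, Real.rpow_neg hn.le] at h1
    have hNk : 0 < N ^ (1 / (k : ℝ)) := Real.rpow_pos_of_pos hN _
    have hns : 0 < n ^ (1 / (s : ℝ)) := Real.rpow_pos_of_pos hn _
    have e1 : c * (n ^ 2 * (n ^ (1 / (s : ℝ)))⁻¹) * (n ^ (1 / (s : ℝ)) * N ^ (1 / (k : ℝ))) =
        n ^ 2 * (c * N ^ (1 / (k : ℝ))) := by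
      field_simp
    have e2 : 3 / 2 * n ^ 2 * (N ^ (1 / (k : ℝ)))⁻¹ * (n ^ (1 / (s : ℝ)) * N ^ (1 / (k : ℝ))) =
        n ^ 2 * (3 / 2 * n ^ (1 / (s : ℝ))) := by
      field_simp
    have e3 := mul_le_mul_of_nonneg_right h1
      (show 0 ≤ n ^ (1 / (s : ℝ)) * N ^ (1 / (k : ℝ)) by positivity)
    rw [e1, e2] at e3
    have e4 := le_of_mul_le_mul_left e3 (by positivity)
    rw [show 3 / (2 * c) * n ^ (1 / (s : ℝ)) = (3 / 2 * n ^ (1 / (s : ℝ))) / c by field_simp,
      le_div_iff₀ hc, mul_comm]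
    exact e4
  have h5 : N = (N ^ (1 / (k : ℝ))) ^ k := by
    rw [← Real.rpow_natCast, ← Real.rpow_mul hN.le, one_div, inv_mul_cancel₀ hk0.ne',
      Real.rpow_one]
  have h6 : (3 / (2 * c)) ^ k * n ^ ((k : ℝ) / s) = (3 / (2 * c) * n ^ (1 / (s : ℝ))) ^ k := by
    rw [mul_pow, ← Real.rpow_natCast (n ^ (1 / (s : ℝ))) k, ← Real.rpow_mul hn.le]
    congr 2
    ring
  rw [h6]
  calc N = (N ^ (1 / (k : ℝ))) ^ k := h5
    _ ≤ _ := pow_le_pow_left₀ (Real.rpow_nonneg hN.le _) h4 k

end Pool.Agent.J4H91.TG
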