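import Pool.Agent.J4H91.TG.Ex

/-!
# Projective norm graphs of quadratic extensions in characteristic two
-/

set_option autoImplicit false

namespace Pool.Agent.J4H91.TG

open Finset

section norm

variable (F K : Type) [Field F] [Fintype F] [Field K] [Fintype K] [Algebra F K]

/-- the projective norm graph -/
def ng : SimpleGraph (K × Fˣ) where
  Adj u v := u ≠ v ∧ Algebra.norm F (u.1 + v.1) = (u.2 : F) * (v.2 : F)
  symm := ⟨fun u v h => ⟨h.1.symm, by rw [add_comm, h.2, mul_comm]⟩⟩
  loopless := ⟨fun u h => h.1 rfl⟩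

lemma norm_eq (hdeg : Module.finrank F K = 2) :
    ∃ σ : K →+* K, ∀ x, algebraMap F K (Algebra.norm F x) = x * σ x := by
  refine ⟨(FiniteField.frobeniusAlgHom F K).toRingHom, fun x => ?_⟩
  have h1 : (FiniteField.frobeniusAlgHom F K).toRingHom x = x ^ Nat.card F := by
    rw [Nat.card_eq_fintype_card]
    rfl
  rw [h1, FiniteField.algebraMap_norm_eq_prod_pow, hdeg, prod_range_succ, prod_range_one]
  simp

lemma ng_free (hdeg : Module.finrank F K = 2) :
    (completeBipartiteGraph (Fin 3) (Fin 3)).Free (ng F K) := by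
  intro hcon
  obtain ⟨f, g, hf, hg, h⟩ := copy_data (ng F K) (not_not.2 hcon)
  obtain ⟨σ, hσ⟩ := norm_eq F K hdeg
  have inj : Function.Injective (algebraMap F K) := (algebraMap F K).injective
  have hN : ∀ i j, ((f i).1 + (g j).1) * σ ((f i).1 + (g j).1) =
      algebraMap F K ((f i).2 : F) * algebraMap F K ((g j).2 : F) := by
    intro i j
    rw [← hσ, ← map_mul]
    exact congrArg _ (h i j).2
  have ha : ∀ i, algebraMap F K ((f i).2 : F) ≠ 0 := fun i =>
    (map_ne_zero_iff _ inj).2 (f i).2.ne_zero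
  have hx : ∀ j, algebraMap F K ((g j).2 : F) ≠ 0 := fun j =>
    (map_ne_zero_iff _ inj).2 (g j).2.ne_zero
  have hX : ∀ i k, (f i).1 = (f k).1 → i = k := by
    intro i k hik
    apply hf
    have h1 := hN i 0
    rw [hik, hN k 0] at h1
    exact Prod.ext hik (Units.ext (inj (mul_right_cancel₀ (hx 0) h1).symm))
  have hY : ∀ i k, (g i).1 = (g k).1 → i = k := by
    intro i k hik
    apply hg
    have h1 := hN 0 i
    rw [hik, hN 0 k] at h1
    exact Prod.ext hik (Units.ext (inj (mul_left_cancel₀ (ha 0) h1).symm))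
  have hu : ∀ j, (f 2).1 + (g j).1 ≠ 0 := by
    intro j h0
    have h1 := hN 2 j
    rw [h0, zero_mul] at h1
    exact mul_ne_zero (ha 2) (hx j) h1.symm
  have hsu : ∀ j, σ ((f 2).1 + (g j).1) ≠ 0 := fun j =>
    (map_ne_zero_iff σ σ.injective).2 (hu j)
  have sys : ∀ i j, (1 + ((f i).1 - (f 2).1) * ((f 2).1 + (g j).1)⁻¹) *
      (1 + σ ((f i).1 - (f 2).1) * σ (((f 2).1 + (g j).1)⁻¹)) =
      algebraMap F K ((f i).2 : F) / algebraMap F K ((f 2).2 : F) := by
    intro i j
    have e1 : 1 + ((f i).1 - (f 2).1) * ((f 2).1 + (g j).1)⁻¹ =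
        ((f i).1 + (g j).1) / ((f 2).1 + (g j).1) := by
      have := hu j
      field_simp
      ring
    have e2 : 1 + σ ((f i).1 - (f 2).1) * σ (((f 2).1 + (g j).1)⁻¹) =
        σ ((f i).1 + (g j).1) / σ ((f 2).1 + (g j).1) := by
      rw [← map_mul, ← map_one σ, ← map_add, e1, map_div₀]
    rw [e1, e2, div_mul_div_comm, hN i j, hN 2 j, mul_div_mul_right _ _ (hx j)]
  refine norm_system σ ((f 0).1 - (f 2).1) ((f 1).1 - (f 2).1) _ _ ?_ ?_ ?_
    (fun j => ((f 2).1 + (g j).1)⁻¹) ?_ (sys 0) (sys 1)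
  · intro h0
    exact absurd (hX 0 2 (sub_eq_zero.1 h0)) (by decide)
  · intro h0
    exact absurd (hX 1 2 (sub_eq_zero.1 h0)) (by decide)
  · intro h0
    exact absurd (hX 0 1 (sub_left_injective h0)) (by decide)
  · intro j k hjk
    apply hY
    exact add_left_cancel (inv_injective hjk)

/-- translations of the first coordinate -/
@[reducible] def act : MulAction (Multiplicative K) (K × Fˣ) where
  smul c v := (Multiplicative.toAdd c + v.1, v.2)
  one_smul _ := Prod.ext (zero_add _) rfl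
  mul_smul _ _ _ := Prod.ext (add_assoc _ _ _) rfl

omit [Fintype F] [Fintype K] in
lemma ng_symmetric [CharP K 2] : @Symmetric (Multiplicative K) (K × Fˣ) _ (act F K) (ng F K) := by
  let _ : MulAction (Multiplicative K) (K × Fˣ) := act F K
  have h2 : ∀ x : K, x + x = 0 := fun x => CharTwo.add_self_eq_zero x
  have h22 : (2 : K) = 0 := CharTwo.two_eq_zero
  refine ⟨?_, ?_, ?_⟩
  · intro q
    apply Multiplicative.toAdd.injective
    exact h2 _
  · intro q v w hvw
    set a : K := Multiplicative.toAdd q with ha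
    change ((a + v.1, v.2) : K × Fˣ) ≠ (a + w.1, w.2) ∧
      Algebra.norm F ((a + v.1) + (a + w.1)) = (v.2 : F) * (w.2 : F)
    refine ⟨fun h => hvw.1 ?_, ?_⟩
    · have h1 := (Prod.ext_iff.1 h).1
      have h3 := (Prod.ext_iff.1 h).2
      exact Prod.ext (add_left_cancel h1) h3
    · have e1 : (a + v.1) + (a + w.1) = v.1 + w.1 := by
        linear_combination a * h22
      rw [e1]
      exact hvw.2
  · intro q v hq
    set a : K := Multiplicative.toAdd q with ha
    have h1 : a + v.1 = v.1 := (Prod.ext_iff.1 hq).1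
    apply Multiplicative.toAdd.injective
    exact add_eq_right.1 h1

lemma ng_edges [DecidableEq F] [CharP K 2] :
    Fintype.card (K × Fˣ) * (Fintype.card K - 1) ≤ 2 * Nat.card (ng F K).edgeSet := by
  classical
  apply edges_ge
  intro v
  have hn : ∀ x : K, x ≠ v.1 → Algebra.norm F (v.1 + x) ≠ 0 := by
    intro x hx
    rw [Algebra.norm_ne_zero_iff]
    intro h0
    apply hx
    have h2 : v.1 + v.1 = 0 := CharTwo.add_self_eq_zero _
    exact add_left_cancel (h0.trans h2.symm)
  refine ⟨(univ.filter (fun x : K => x ≠ v.1)).image (fun x =>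
    (x, if h : Algebra.norm F (v.1 + x) ≠ 0 then v.2⁻¹ * Units.mk0 _ h else 1)), ?_, ?_⟩
  · rw [card_image_of_injective _ (fun x y h => (Prod.ext_iff.1 h).1), filter_ne', card_erase_of_mem
      (mem_univ _), card_univ]
  · intro w hw
    obtain ⟨x, hx, rfl⟩ := mem_image.1 hw
    have hx' := (mem_filter.1 hx).2
    refine ⟨fun h => hx' (by rw [h]), ?_⟩
    rw [dif_pos (hn x hx')]
    simp

lemma ng_card [DecidableEq F] (hdeg : Module.finrank F K = 2) :
    Fintype.card (K × Fˣ) = Fintype.card F ^ 2 * (Fintype.card F - 1) ∧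
      Fintype.card K = Fintype.card F ^ 2 := by
  classical
  have h1 : Fintype.card K = Fintype.card F ^ 2 := by
    rw [← hdeg]
    exact Module.card_eq_pow_finrank
  refine ⟨?_, h1⟩
  rw [Fintype.card_prod, h1, Fintype.card_units]

end norm

/-- **the exponent `2 / 3` for `K_{3,3}`** -/
theorem sharp_three (n₀ : ℕ) :
    ∃ (V Q : Type) (_ : Fintype V) (_ : Group Q) (_ : Fintype Q) (_ : MulAction Q V)
      (G : SimpleGraph V), n₀ ≤ Fintype.card V ∧ Symmetric Q V G ∧
        (completeBipartiteGraph (Fin 3) (Fin 3)).Free G ∧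
        1 / 2 * (Fintype.card V : ℝ) ^ (2 - 1 / 3 : ℝ) ≤ Nat.card G.edgeSet ∧
        (Fintype.card V : ℝ) ^ (2 / 3 : ℝ) ≤ Fintype.card Q := by
  classical
  set m := n₀ + 1 with hm
  let F := GaloisField 2 m
  let _ : Fintype F := Fintype.ofFinite F
  let K := FiniteField.Extension F 2 2
  let _ : Fintype K := Fintype.ofFinite K
  have hK : CharP K 2 := charP_of_injective_algebraMap (algebraMap F K).injective 2
  have hdeg : Module.finrank F K = 2 := FiniteField.finrank_extension F 2 2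
  have hq : Fintype.card F = 2 ^ m := by
    rw [← Nat.card_eq_fintype_card]
    exact GaloisField.card 2 m (by omega)
  obtain ⟨hc1, hc2⟩ := ng_card F K hdeg
  set q := Fintype.card F with hqd
  have hq2 : n₀ + 2 ≤ q := by
    rw [hq]
    exact Nat.lt_two_pow_self
  have hn : (Fintype.card (K × Fˣ) : ℝ) = (q : ℝ) ^ 2 * (q - 1) := by
    rw [hc1]
    push_cast [Nat.cast_sub (show 1 ≤ q by omega)]
    ring
  have hqr : (2 : ℝ) ≤ q := by
    have : 2 ≤ q := by omega
    exact_mod_cast this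
  have hn0 : 0 < (Fintype.card (K × Fˣ) : ℝ) := by
    rw [hn]
    have : (0 : ℝ) < q - 1 := by linarith
    positivity
  have h23 : (Fintype.card (K × Fˣ) : ℝ) ^ (2 / 3 : ℝ) ≤ (q : ℝ) ^ 2 - 1 := by
    have e1 : ((Fintype.card (K × Fˣ) : ℝ) ^ (2 / 3 : ℝ)) ^ 3 ≤ ((q : ℝ) ^ 2 - 1) ^ 3 := by
      rw [← Real.rpow_natCast, ← Real.rpow_mul hn0.le, show (2 / 3 : ℝ) * (3 : ℕ) = (2 : ℕ) by
        norm_num, Real.rpow_natCast, hn]
      have e2 : ((q : ℝ) ^ 2 - 1) ^ 3 - ((q : ℝ) ^ 2 * (q - 1)) ^ 2 =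
          (q - 1) ^ 2 * ((q - 1) * (q + 1) ^ 3 - q ^ 4) := by ring
      have e3 : (0 : ℝ) ≤ (q - 1) * (q + 1) ^ 3 - q ^ 4 := by
        have : ((q : ℝ) - 1) * (q + 1) ^ 3 - q ^ 4 = 2 * q ^ 3 - 2 * q - 1 := by ring
        rw [this]
        nlinarith [mul_nonneg (by linarith : (0 : ℝ) ≤ q) (sq_nonneg ((q : ℝ) - 2)),
          pow_pos (show (0 : ℝ) < q by linarith) 3]
      have e4 : (0 : ℝ) ≤ (q - 1) ^ 2 * ((q - 1) * (q + 1) ^ 3 - q ^ 4) :=
        mul_nonneg (sq_nonneg _) e3
      linarith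
    exact (pow_le_pow_iff_left₀ (by positivity) (by nlinarith) (by norm_num)).1 e1
  refine ⟨K × Fˣ, Multiplicative K, inferInstance, inferInstance, inferInstance, act F K, ng F K,
    ?_, ng_symmetric F K, ng_free F K hdeg, ?_, ?_⟩
  · rw [hc1]
    have e1 : 1 ≤ q ^ 2 := Nat.one_le_pow _ _ (by omega)
    calc n₀ ≤ 1 * (q - 1) := by omega
      _ ≤ q ^ 2 * (q - 1) := Nat.mul_le_mul_right _ e1
  · have e1 := ng_edges F K
    have e2 : (Fintype.card (K × Fˣ) : ℝ) * ((q : ℝ) ^ 2 - 1) ≤
        2 * Nat.card (ng F K).edgeSet := by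
      rw [hc2] at e1
      have e3 : ((Fintype.card (K × Fˣ) * (q ^ 2 - 1) : ℕ) : ℝ) ≤
          ((2 * Nat.card (ng F K).edgeSet : ℕ) : ℝ) := Nat.cast_le.2 e1
      rw [Nat.cast_mul, Nat.cast_sub (Nat.one_le_pow _ _ (by omega))] at e3
      push_cast at e3 ⊢
      exact e3
    have e3 : (Fintype.card (K × Fˣ) : ℝ) ^ (2 - 1 / 3 : ℝ) =
        Fintype.card (K × Fˣ) * (Fintype.card (K × Fˣ) : ℝ) ^ (2 / 3 : ℝ) := by
      rw [show (2 - 1 / 3 : ℝ) = 1 + 2 / 3 by norm_num, Real.rpow_add hn0, Real.rpow_one]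
    rw [e3]
    have e4 := mul_le_mul_of_nonneg_left h23 hn0.le
    linarith
  · have e1 : (Fintype.card (Multiplicative K) : ℝ) = (q : ℝ) ^ 2 := by
      rw [Fintype.card_multiplicative, hc2]
      push_cast
      ring
    rw [e1]
    linarith

/-! ### graphs without `K_{2,2}` -/

section lines

variable (F : Type) [Field F]

/-- points and lines -/
def ln : SimpleGraph (F × F) where
  Adj u v := u ≠ v ∧ u.2 + v.2 = u.1 * v.1
  symm := ⟨fun u v h => ⟨h.1.symm, by rw [add_comm, h.2, mul_comm]⟩⟩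
  loopless := ⟨fun u h => h.1 rfl⟩

lemma ln_free : (completeBipartiteGraph (Fin 2) (Fin 2)).Free (ln F) := by
  intro hcon
  obtain ⟨f, g, hf, hg, h⟩ := copy_data (ln F) (not_not.2 hcon)
  have e00 := (h 0 0).2
  have e01 := (h 0 1).2
  have e10 := (h 1 0).2
  have e11 := (h 1 1).2
  have e : ((f 0).1 - (f 1).1) * ((g 0).1 - (g 1).1) = 0 := by
    linear_combination (-1 : F) * e00 + e01 + e10 - e11
  rcases mul_eq_zero.1 e with h0 | h0
  · have h1 := sub_eq_zero.1 h0
    have h2 : (f 0).2 = (f 1).2 := by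
      rw [h1, ← e10] at e00
      exact add_right_cancel e00
    exact absurd (hf (Prod.ext h1 h2)) (by decide)
  · have h1 := sub_eq_zero.1 h0
    have h2 : (g 0).2 = (g 1).2 := by
      rw [h1, ← e01] at e00
      exact add_left_cancel e00
    exact absurd (hg (Prod.ext h1 h2)) (by decide)

/-- translations of the second coordinate -/
@[reducible] def act2 : MulAction (Multiplicative F) (F × F) where
  smul c v := (v.1, Multiplicative.toAdd c + v.2)
  one_smul _ := Prod.ext rfl (zero_add _)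
  mul_smul _ _ _ := Prod.ext rfl (add_assoc _ _ _)

lemma ln_symmetric [CharP F 2] : @Symmetric (Multiplicative F) (F × F) _ (act2 F) (ln F) := by
  let _ : MulAction (Multiplicative F) (F × F) := act2 F
  have h2 : ∀ x : F, x + x = 0 := fun x => CharTwo.add_self_eq_zero x
  have h22 : (2 : F) = 0 := CharTwo.two_eq_zero
  refine ⟨?_, ?_, ?_⟩
  · intro q
    apply Multiplicative.toAdd.injective
    exact h2 _
  · intro q v w hvw
    set a : F := Multiplicative.toAdd q with ha
    change ((v.1, a + v.2) : F × F) ≠ (w.1, a + w.2) ∧ (a + v.2) + (a + w.2) = v.1 * w.1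
    refine ⟨fun h => hvw.1 ?_, ?_⟩
    · have h1 := (Prod.ext_iff.1 h).1
      have h3 := (Prod.ext_iff.1 h).2
      exact Prod.ext h1 (add_left_cancel h3)
    · have := hvw.2
      linear_combination this + a * h22
  · intro q v hq
    set a : F := Multiplicative.toAdd q with ha
    have h1 : a + v.2 = v.2 := (Prod.ext_iff.1 hq).2
    apply Multiplicative.toAdd.injective
    exact add_eq_right.1 h1

lemma ln_edges [Fintype F] :
    Fintype.card (F × F) * (Fintype.card F - 1) ≤ 2 * Nat.card (ln F).edgeSet := by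
  classical
  apply edges_ge
  intro v
  refine ⟨(univ.filter (fun x : F => x ≠ v.1)).image (fun x => (x, v.1 * x - v.2)), ?_, ?_⟩
  · rw [card_image_of_injective _ (fun x y h => (Prod.ext_iff.1 h).1), filter_ne', card_erase_of_mem
      (mem_univ _), card_univ]
  · intro w hw
    obtain ⟨x, hx, rfl⟩ := mem_image.1 hw
    refine ⟨fun h => (mem_filter.1 hx).2 (by rw [h]), ?_⟩
    change v.2 + (v.1 * x - v.2) = v.1 * x
    ring

end lines

/-- **the exponent `1 / 2` for `K_{2,2}`** -/
theorem sharp_two (n₀ : ℕ) :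
    ∃ (V Q : Type) (_ : Fintype V) (_ : Group Q) (_ : Fintype Q) (_ : MulAction Q V)
      (G : SimpleGraph V), n₀ ≤ Fintype.card V ∧ Symmetric Q V G ∧
        (completeBipartiteGraph (Fin 2) (Fin 2)).Free G ∧
        1 / 4 * (Fintype.card V : ℝ) ^ (2 - 1 / 2 : ℝ) ≤ Nat.card G.edgeSet ∧
        (Fintype.card V : ℝ) ^ (1 / 2 : ℝ) ≤ Fintype.card Q := by
  classical
  set m := n₀ + 1 with hm
  let F := GaloisField 2 m
  let _ : Fintype F := Fintype.ofFinite F
  have hq : Fintype.card F = 2 ^ m := by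
    rw [← Nat.card_eq_fintype_card]
    exact GaloisField.card 2 m (by omega)
  set q := Fintype.card F with hqd
  have hq2 : n₀ + 2 ≤ q := by
    rw [hq]
    exact Nat.lt_two_pow_self
  have hc1 : Fintype.card (F × F) = q * q := Fintype.card_prod _ _
  have hqr : (2 : ℝ) ≤ q := by
    have : 2 ≤ q := by omega
    exact_mod_cast this
  refine ⟨F × F, Multiplicative F, inferInstance, inferInstance, inferInstance, act2 F, ln F, ?_,
    ln_symmetric F, ln_free F, ?_, ?_⟩
  · rw [hc1]
    nlinarith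
  · have e1 := ln_edges F
    rw [hc1] at e1
    have e2 : ((q : ℝ) * q) * (q - 1) ≤ 2 * Nat.card (ln F).edgeSet := by
      have e3 : ((q * q * (q - 1) : ℕ) : ℝ) ≤ ((2 * Nat.card (ln F).edgeSet : ℕ) : ℝ) :=
        Nat.cast_le.2 e1
      rw [Nat.cast_mul, Nat.cast_sub (by omega)] at e3
      push_cast at e3 ⊢
      exact e3
    have e3 : (Fintype.card (F × F) : ℝ) ^ (2 - 1 / 2 : ℝ) = (q : ℝ) ^ 3 := by
      rw [hc1]
      push_cast
      rw [← sq, ← Real.rpow_natCast, ← Real.rpow_natCast, ← Real.rpow_mul (by positivity)]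
      norm_num
    rw [e3]
    nlinarith [sq_nonneg (q : ℝ)]
  · rw [hc1]
    have e1 : (Fintype.card (Multiplicative F) : ℝ) = (q : ℝ) := by
      rw [Fintype.card_multiplicative]
    rw [e1]
    push_cast
    rw [← sq, ← Real.rpow_natCast, ← Real.rpow_mul (by positivity)]
    norm_num

/-- **Cayley graphs without `K_{2,3}`** -/
theorem sharp_cayley (n₀ : ℕ) :
    ∃ (V Q : Type) (_ : Fintype V) (_ : Group Q) (_ : Fintype Q) (_ : MulAction Q V)
      (G : SimpleGraph V), n₀ ≤ Fintype.card V ∧ Symmetric Q V G ∧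
        Fintype.card Q = Fintype.card V ∧
        (completeBipartiteGraph (Fin 2) (Fin 3)).Free G ∧
        1 / 4 * (Fintype.card V : ℝ) ^ (3 / 2 : ℝ) ≤ Nat.card G.edgeSet := by
  classical
  set m := n₀ + 1 with hm
  let F := GaloisField 2 m
  let _ : Fintype F := Fintype.ofFinite F
  have hq : Fintype.card F = 2 ^ m := by
    rw [← Nat.card_eq_fintype_card]
    exact GaloisField.card 2 m (by omega)
  set q := Fintype.card F with hqd
  have hq2 : n₀ + 2 ≤ q := by
    rw [hq]
    exact Nat.lt_two_pow_self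
  have hc1 : Fintype.card (F × F) = q * q := Fintype.card_prod _ _
  have hqr : (2 : ℝ) ≤ q := by
    have : 2 ≤ q := by omega
    exact_mod_cast this
  refine ⟨F × F, Multiplicative (F × F), inferInstance, inferInstance, inferInstance,
    inferInstance, cube F, ?_, cube_symmetric F, ?_, cube_free F, ?_⟩
  · rw [hc1]
    nlinarith
  · exact Fintype.card_multiplicative _
  · have e1 := cube_edges F
    rw [hc1] at e1
    have e2 : ((q : ℝ) * q) * (q - 1) ≤ 2 * Nat.card (cube F).edgeSet := by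
      have e3 : ((q * q * (q - 1) : ℕ) : ℝ) ≤ ((2 * Nat.card (cube F).edgeSet : ℕ) : ℝ) :=
        Nat.cast_le.2 e1
      rw [Nat.cast_mul, Nat.cast_sub (by omega)] at e3
      push_cast at e3 ⊢
      exact e3
    have e3 : (Fintype.card (F × F) : ℝ) ^ (3 / 2 : ℝ) = (q : ℝ) ^ 3 := by
      rw [hc1]
      push_cast
      rw [← sq, ← Real.rpow_natCast, ← Real.rpow_natCast, ← Real.rpow_mul (by positivity)]
      norm_num
    rw [e3]
    nlinarith [sq_nonneg (q : ℝ)]

end Pool.Agent.J4H91.TG
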